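import Mathlib
import Pool.Agent.H422Cone.ConeDec
import Pool.Agent.H422Cone.Lower

/-!
# MP_773c61_co: critical exponents of iterated cones over bipartite graphs

Let `H` be a finite bipartite graph in which some vertex has two neighbours, and let `G` be
obtained from `H` by adding, one after the other, `m ≥ 0` new vertices, each adjacent to all
vertices present so far (so `G` is the join of `K_m` and `H`). Then `CE_H(G) = m + 1`; in
particular `CE_H(G') = CE_H(G) + 1` for the cone `G'` over `G`.
-/

set_option autoImplicit false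

open Finset

namespace Pool.Agent.Results.MP_773c61_co.BipartiteCone

/-- The matrices in `P_G(I)`: positive semidefinite, entries in `I`, zero at non-edges. -/
def PG {V : Type} [Fintype V] (G : SimpleGraph V) (I : Set ℝ) : Set (Matrix V V ℝ) :=
  {A | A.PosSemidef ∧ (∀ i j, A i j ∈ I) ∧ ∀ i j, i ≠ j → ¬ G.Adj i j → A i j = 0}

/-- The entrywise power, with the convention that zero entries stay zero. -/
noncomputable def hpow {V : Type} (A : Matrix V V ℝ) (β : ℝ) : Matrix V V ℝ :=
  fun i j => if A i j = 0 then 0 else A i j ^ β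

/-- The exponents `α` such that every power `β ≥ α` maps `P_G([0,∞))` into `P_G`. -/
def Good {V : Type} [Fintype V] (G : SimpleGraph V) : Set ℝ :=
  {α | ∀ β, α ≤ β → ∀ A ∈ PG G (Set.Ici 0), hpow A β ∈ PG G Set.univ}

/-- `c` is the Hadamard critical exponent of `G`: the minimum of `Good G`. -/
def IsCritical {V : Type} [Fintype V] (G : SimpleGraph V) (c : ℝ) : Prop := IsLeast (Good G) c

/-- The graph obtained by adding one new vertex (`none`) adjacent to every vertex of `G`. -/
def cone {V : Type} (G : SimpleGraph V) : SimpleGraph (Option V) where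
  Adj a b := match a, b with
    | none, none => False
    | none, some _ => True
    | some _, none => True
    | some u, some v => G.Adj u v
  symm := ⟨by
    rintro (_ | u) (_ | v) h
    · exact h
    · trivial
    · trivial
    · exact SimpleGraph.Adj.symm (G := G) h⟩
  loopless := ⟨by
    rintro (_ | u) h
    · exact h
    · exact G.loopless.irrefl u h⟩

/-- The vertex set after adding `m` new vertices to `V`. -/
def IterV (V : Type) : ℕ → Type
  | 0 => V
  | m + 1 => Option (IterV V m)

instance instFintypeIterV (V : Type) [Fintype V] : (m : ℕ) → Fintype (IterV V m)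
  | 0 => inferInstanceAs (Fintype V)
  | m + 1 =>
    haveI := instFintypeIterV V m
    inferInstanceAs (Fintype (Option (IterV V m)))

/-- The cone construction applied `m` times. -/
def iterCone {V : Type} (H : SimpleGraph V) : (m : ℕ) → SimpleGraph (IterV V m)
  | 0 => H
  | m + 1 => cone (iterCone H m)

theorem hpow_eq {V : Type} (A : Matrix V V ℝ) {β : ℝ} (hβ : β ≠ 0) (i j : V) :
    hpow A β i j = A i j ^ β := by
  unfold hpow
  split_ifs with h
  · rw [h, Real.zero_rpow hβ]
  · rfl

theorem hpow_mem {V : Type} [Fintype V] (G : SimpleGraph V) {A : Matrix V V ℝ}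
    (hA : A ∈ PG G (Set.Ici 0)) {β : ℝ} (hβ : β ≠ 0)
    (h : ∀ x : V → ℝ, 0 ≤ ∑ i, ∑ j, x i * A i j ^ β * x j) : hpow A β ∈ PG G Set.univ := by
  obtain ⟨hpsd, _, hsupp⟩ := hA
  refine ⟨?_, fun i j => Set.mem_univ _, ?_⟩
  · rw [Pool.Agent.H422Cone.psd_iff]
    refine ⟨fun i j => ?_, fun x => ?_⟩
    · rw [hpow_eq A hβ, hpow_eq A hβ, ((Pool.Agent.H422Cone.psd_iff A).1 hpsd).1 i j]
    · simp only [hpow_eq A hβ]
      exact h x
  · intro i j hij hadj
    unfold hpow
    rw [if_pos (hsupp i j hij hadj)]

theorem exists_bool {V : Type} (G : SimpleGraph V) (h : G.IsBipartite) :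
    ∃ c : V → Bool, ∀ i j, c i = c j → ¬ G.Adj i j := by
  obtain ⟨C⟩ := h
  refine ⟨fun i => decide (C i = 0), fun i j hc hadj => ?_⟩
  have hne := C.valid hadj
  have h1 : ∀ k : Fin 2, k = 0 ∨ k = 1 := by decide
  rcases h1 (C i) with hi | hi <;> rcases h1 (C j) with hj | hj <;>
    simp_all

/-- Graphs with clique decompositions of order `k`: all exponents `≥ k - 1` are good. -/
theorem good_of_dec {V : Type} [Fintype V] (G : SimpleGraph V) (k : ℕ) (hk : 2 ≤ k)
    (h : Pool.Agent.H422Cone.Dec G k) : ((k : ℝ) - 1) ∈ Good G := by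
  classical
  intro β hβ A hA
  have hk' : (2 : ℝ) ≤ k := by exact_mod_cast hk
  have hβ0 : 0 < β := by linarith
  refine hpow_mem G hA hβ0.ne' fun x => ?_
  obtain ⟨hpsd, hnn, hsupp⟩ := hA
  obtain ⟨hsym, hpsd⟩ := (Pool.Agent.H422Cone.psd_iff A).1 hpsd
  apply Pool.Agent.H422Cone.perturb A hβ0 x
  intro ε hε
  have hnn' : ∀ i j, 0 ≤ A i j + if i = j then ε else 0 := by
    intro i j
    have h1 : 0 ≤ A i j := hnn i j
    split_ifs <;> linarith
  have hcs := h (fun i j => A i j + if i = j then ε else 0) ε hε ?_ hnn' ?_ ?_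
  · exact hcs.pow hk hnn' hβ x
  · intro i j
    rw [hsym i j]
    by_cases h : i = j
    · subst h; rfl
    · rw [if_neg h, if_neg (Ne.symm h)]
  · intro i j hij hadj
    rw [hsupp i j hij hadj, if_neg hij, add_zero]
  · exact Pool.Agent.H422Cone.add_eps A hpsd ε

/-- A sum of two rank one matrices given by nonnegative vectors supported on cliques. -/
theorem mem_two {V : Type} [Fintype V] (G : SimpleGraph V) (p q : V → ℝ) (hp : ∀ i, 0 ≤ p i)
    (hq : ∀ i, 0 ≤ q i) (hp' : ∀ i j, i ≠ j → p i ≠ 0 → p j ≠ 0 → G.Adj i j)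
    (hq' : ∀ i j, i ≠ j → q i ≠ 0 → q j ≠ 0 → G.Adj i j) :
    (fun i j => p i * p j + q i * q j : Matrix V V ℝ) ∈ PG G (Set.Ici 0) := by
  refine ⟨?_, fun i j => ?_, fun i j hij hadj => ?_⟩
  · rw [Pool.Agent.H422Cone.psd_iff]
    refine ⟨fun i j => by ring, fun x => ?_⟩
    have e : ∑ i, ∑ j, x i * (p i * p j + q i * q j) * x j
        = (∑ i, x i * p i) ^ 2 + (∑ i, x i * q i) ^ 2 := by
      rw [sq, sq, sum_mul_sum, sum_mul_sum, ← sum_add_distrib]
      refine sum_congr rfl fun i _ => ?_
      rw [← sum_add_distrib]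
      exact sum_congr rfl fun j _ => by ring
    rw [e]; positivity
  · exact add_nonneg (mul_nonneg (hp i) (hp j)) (mul_nonneg (hq i) (hq j))
  · have h1 : p i * p j = 0 := by
      by_contra h
      exact hadj (hp' i j hij (left_ne_zero_of_mul h) (right_ne_zero_of_mul h))
    have h2 : q i * q j = 0 := by
      by_contra h
      exact hadj (hq' i j hij (left_ne_zero_of_mul h) (right_ne_zero_of_mul h))
    simp only [h1, h2, add_zero]

/-- A weighted indicator vector of the clique formed by the vertices `e i` and the vertex `a`. -/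
theorem exists_vec {V : Type} [DecidableEq V] (G : SimpleGraph V) {n : ℕ} (e : Fin n → V) (a : V)
    (he : ∀ i j, i ≠ j → G.Adj (e i) (e j)) (ha : ∀ i, G.Adj (e i) a) (w : Fin n → ℝ)
    (hw : ∀ i, 0 ≤ w i) :
    ∃ p : V → ℝ, (∀ i, 0 ≤ p i) ∧ (∀ i j, i ≠ j → p i ≠ 0 → p j ≠ 0 → G.Adj i j) ∧
      (∀ i, p (e i) = w i) ∧ p a = 1 ∧ ∀ v, v ≠ a → (∀ i, v ≠ e i) → p v = 0 := by
  have hinj : ∀ i j, e i = e j → i = j := by
    intro i j h
    by_contra hij
    exact G.ne_of_adj (he i j hij) h
  let p : V → ℝ := fun v => (if v = a then 1 else 0) + ∑ i, if v = e i then w i else 0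
  have hp0 : ∀ v, v ≠ a → (∀ i, v ≠ e i) → p v = 0 := by
    intro v h1 h2
    simp only [p]
    rw [if_neg h1, zero_add]
    exact sum_eq_zero fun i _ => if_neg (h2 i)
  have hsup : ∀ v, p v ≠ 0 → v = a ∨ ∃ i, v = e i := by
    intro v hv
    by_contra hcon
    simp only [not_or, not_exists] at hcon
    exact hv (hp0 v hcon.1 hcon.2)
  refine ⟨p, fun v => ?_, fun u v huv hu hv => ?_, fun i => ?_, ?_, hp0⟩
  · refine add_nonneg ?_ (sum_nonneg fun i _ => ?_)
    · split_ifs <;> norm_num
    · split_ifs
      · exact hw i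
      · exact le_refl _
  · rcases hsup u hu with rfl | ⟨i, rfl⟩ <;> rcases hsup v hv with rfl | ⟨j, rfl⟩
    · exact absurd rfl huv
    · exact (ha j).symm
    · exact ha i
    · exact he i j fun h => huv (by rw [h])
  · simp only [p]
    rw [if_neg (G.ne_of_adj (ha i)), zero_add, sum_eq_single i]
    · rw [if_pos rfl]
    · intro j _ hj
      exact if_neg fun h => hj (hinj i j h).symm
    · intro h; exact absurd (mem_univ i) h
  · have h1 : ∑ i, (if a = e i then w i else 0) = 0 :=
      sum_eq_zero fun i _ => if_neg fun h => G.ne_of_adj (ha i) h.symm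
    simp only [p, if_true, h1, add_zero]

/-- **Lower bound.** If `G` contains a complete graph on `N + 3` vertices with one edge removed,
then every good exponent is at least `N + 1`. -/
theorem lower {V : Type} [Fintype V] (G : SimpleGraph V) (N : ℕ) (e : Fin (N + 1) → V) (a b : V)
    (he : ∀ i j, i ≠ j → G.Adj (e i) (e j)) (ha : ∀ i, G.Adj (e i) a) (hb : ∀ i, G.Adj (e i) b)
    (hab : a ≠ b) {α : ℝ} (hα : α ∈ Good G) : (N : ℝ) + 1 ≤ α := by
  classical
  by_contra hcon
  push Not at hcon
  set β := max α ((N : ℝ) + 1 / 2) with hβ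
  have hβ2 : β < N + 1 := max_lt hcon (by linarith)
  have hβ1 : (N : ℝ) < β := lt_of_lt_of_le (by linarith) (le_max_right _ _)
  have hN : (0 : ℝ) ≤ N := Nat.cast_nonneg N
  have hβ0 : 0 < β := by linarith
  obtain ⟨ε, x, y, hε, hx, hneg⟩ := Pool.Agent.H422Cone.exists_small N hβ1 hβ2
  obtain ⟨p, hp0, hpG, hpe, hpa, hpz⟩ := exists_vec G e a he ha (fun _ => 1)
    (fun _ => zero_le_one)
  obtain ⟨q, hq0, hqG, hqe, hqb, hqz⟩ := exists_vec G e b he hb (fun i => Real.sqrt ε * x i)
    (fun i => mul_nonneg (Real.sqrt_nonneg _) (hx i).le)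
  have hpb : p b = 0 := hpz b (Ne.symm hab) fun i => (G.ne_of_adj (hb i)).symm
  have hqa : q a = 0 := hqz a hab fun i => (G.ne_of_adj (ha i)).symm
  have hmem := mem_two G p q hp0 hq0 hpG hqG
  have hgood := (hα β (le_max_left _ _) _ hmem).1
  let E : Option (Option (Fin (N + 1))) → V := fun o => o.elim b fun o => o.elim a e
  have hsub := (Pool.Agent.H422Cone.psd_iff _).1 (hgood.submatrix E)
  let s := ∑ i, y i
  let τ := ∑ i, (Real.sqrt ε * x i) ^ β * y i
  have hq := hsub.2 fun o => o.elim (-τ) fun o => o.elim (-s) y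
  rw [Pool.Agent.H422Cone.quad_option _ hsub.1, Fintype.sum_option,
    Pool.Agent.H422Cone.quad_option (fun i j => (Matrix.submatrix (hpow (fun i j => p i * p j +
      q i * q j) β) E E) (some i) (some j)) (fun i j => hsub.1 _ _)
      (fun i => (Option.elim (some i) (-τ) fun o => o.elim (-s) y))] at hq
  simp only [Matrix.submatrix_apply, E, Option.elim_none, Option.elim_some,
    hpow_eq _ hβ0.ne', hpe, hpa, hpb, hqe, hqa, hqb] at hq
  have hsq : ∀ i j, Real.sqrt ε * x i * (Real.sqrt ε * x j) = ε * (x i * x j) := by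
    intro i j
    have := Real.mul_self_sqrt hε.le
    linear_combination (x i * x j) * this
  simp only [hsq, mul_zero, zero_mul, add_zero, mul_one, zero_add, Real.one_rpow,
    Real.zero_rpow hβ0.ne', one_mul] at hq
  have hfin : ∑ i, ∑ j, y i * y j * ((1 + ε * (x i * x j)) ^ β - 1 - (ε * (x i * x j)) ^ β)
      = ∑ i, ∑ j, y i * (1 + ε * (x i * x j)) ^ β * y j - s ^ 2 - τ ^ 2 := by
    simp only [s, τ]
    rw [sq, sq, sum_mul_sum, sum_mul_sum, ← sum_sub_distrib, ← sum_sub_distrib]
    refine sum_congr rfl fun i _ => ?_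
    rw [← sum_sub_distrib, ← sum_sub_distrib]
    refine sum_congr rfl fun j _ => ?_
    rw [← hsq i j, Real.mul_rpow (mul_nonneg (Real.sqrt_nonneg _) (hx i).le)
      (mul_nonneg (Real.sqrt_nonneg _) (hx j).le)]
    ring
  rw [hfin] at hneg
  simp only [s, τ] at hq hneg
  nlinarith

/-- The clique data needed for the lower bound persist under the cone construction. -/
theorem exists_clique {V : Type} (H : SimpleGraph V) {v a b : V} (hva : H.Adj v a)
    (hvb : H.Adj v b) (hab : a ≠ b) (m : ℕ) :
    ∃ (e : Fin (m + 1) → IterV V m) (a b : IterV V m),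
      (∀ i j, i ≠ j → (iterCone H m).Adj (e i) (e j)) ∧ (∀ i, (iterCone H m).Adj (e i) a) ∧
        (∀ i, (iterCone H m).Adj (e i) b) ∧ a ≠ b := by
  induction m with
  | zero =>
    refine ⟨fun _ => v, a, b, fun i j hij => ?_, fun _ => hva, fun _ => hvb, hab⟩
    exact absurd (Fin.ext (by omega)) hij
  | succ m ih =>
    obtain ⟨e, a', b', h1, h2, h3, h4⟩ := ih
    refine ⟨Fin.cons (none : Option (IterV V m)) fun i => (some (e i) : Option (IterV V m)),
      (some a' : Option (IterV V m)), (some b' : Option (IterV V m)), ?_, ?_, ?_, ?_⟩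
    · intro i j hij
      induction i using Fin.cases with
      | zero =>
        induction j using Fin.cases with
        | zero => exact absurd rfl hij
        | succ j => exact trivial
      | succ i =>
        induction j using Fin.cases with
        | zero => exact trivial
        | succ j => exact h1 i j fun h => hij (by rw [h])
    · intro i
      induction i using Fin.cases with
      | zero => exact trivial
      | succ i => exact h2 i
    · intro i
      induction i using Fin.cases with
      | zero => exact trivial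
      | succ i => exact h3 i
    · intro h
      exact h4 (Option.some.inj h)

theorem dec_iter {V : Type} [Fintype V] (H : SimpleGraph V) (hH : H.IsBipartite) (m : ℕ) :
    Pool.Agent.H422Cone.Dec (iterCone H m) (m + 2) := by
  induction m with
  | zero =>
    obtain ⟨c, hc⟩ := exists_bool H hH
    exact Pool.Agent.H422Cone.dec_bipartite H c hc
  | succ m ih =>
    have h := Pool.Agent.H422Cone.dec_cone (iterCone H m) (m + 2) ih
    exact h

/-- **Theorem.** Let `H` be a finite bipartite graph in which some vertex `v` has two distinct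
neighbours. For every `m ≥ 0` let `G_m` be the graph obtained from `H` by adding `m` dominating
vertices one after the other. Then `CE_H(G_m) = m + 1` for every `m`; hence for `G = G_m` the cone
`G' = G_{m+1}` has `CE_H(G') = CE_H(G) + 1`. -/
theorem result {V : Type} [Fintype V] (H : SimpleGraph V) (hH : H.IsBipartite)
    (v a b : V) (hva : H.Adj v a) (hvb : H.Adj v b) (hab : a ≠ b) (m : ℕ) :
    IsCritical (iterCone H m) ((m : ℝ) + 1) ∧
      IsCritical (cone (iterCone H m)) (((m : ℝ) + 1) + 1) := by
  have key : ∀ m : ℕ, IsCritical (iterCone H m) ((m : ℝ) + 1) := by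
    intro m
    constructor
    · have h := good_of_dec (iterCone H m) (m + 2) (by omega) (dec_iter H hH m)
      have e : (((m + 2 : ℕ) : ℝ) - 1) = (m : ℝ) + 1 := by push_cast; ring
      rwa [e] at h
    · intro α hα
      obtain ⟨e, a', b', h1, h2, h3, h4⟩ := exists_clique H hva hvb hab m
      exact lower (iterCone H m) m e a' b' h1 h2 h3 h4 hα
  refine ⟨key m, ?_⟩
  have h := key (m + 1)
  have e : (((m + 1 : ℕ) : ℝ) + 1) = ((m : ℝ) + 1) + 1 := by push_cast; ring
  rw [e] at h
  exact h

end Pool.Agent.Results.MP_773c61_co.BipartiteCone
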